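import Pool.Agent.Helper10.Fam.Stmts

set_option autoImplicit false

/-!
# ORB: the orbit of the cusp (MP_8410ab_nt, family project)
-/

namespace Pool.Agent.Helper10.Fam

open Pool.Agent.Helper10.Lor
open scoped BigOperators

theorem orb_comm {n : ℕ} (x y : LV n) : form x y = form y x := by
  simp only [form]
  rw [real_inner_comm]
  ring

/-- the form as a linear map in the second variable -/
noncomputable def orb_fl {n : ℕ} (x : LV n) : LV n →ₗ[ℝ] ℝ where
  toFun y := form x y
  map_add' y z := by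
    simp only [form, Prod.snd_add, Prod.fst_add, inner_add_right]
    ring
  map_smul' c y := by
    simp only [form, Prod.smul_snd, Prod.smul_fst, inner_smul_right, smul_eq_mul,
      RingHom.id_apply]
    ring

theorem orb_fl_apply {n : ℕ} (x y : LV n) : orb_fl x y = form x y := rfl

theorem orb_form_rv (D : Dat) (β : Fin D.n → E D.n) (x : LV D.n) (m : ℕ → ℝ) :
    form x (rv D β m) = -∑ i ∈ Finset.range (D.n + 2), m i * form x (alp D β i) := by
  rw [← orb_fl_apply, rv, map_neg, map_sum]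
  congr 1
  refine Finset.sum_congr rfl fun i _ => ?_
  rw [map_smul, orb_fl_apply, smul_eq_mul]

theorem orb_form_w0 {n : ℕ} (x : LV n) : form x w0 = -x.1 := by
  simp only [form, w0, inner_zero_right]
  ring

theorem orb_alp_fst (D : Dat) (β : Fin D.n → E D.n) {i : ℕ} (hi : i < D.n + 2) :
    (alp D β i).1 = if i = D.n + 1 then (-1 : ℝ) else 0 := by
  unfold alp
  by_cases h : i < D.n
  · rw [dif_pos h, if_neg (by omega)]
  · rw [dif_neg h]
    by_cases h2 : i = D.n
    · rw [if_pos h2, if_neg (by omega)]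
    · rw [if_neg h2, if_pos (by omega)]

theorem orb_rv_fst (D : Dat) (β : Fin D.n → E D.n) (m : ℕ → ℝ) :
    (rv D β m).1 = m (D.n + 1) := by
  rw [rv, Prod.fst_neg, Prod.fst_sum]
  rw [Finset.sum_eq_single (D.n + 1)]
  · rw [Prod.smul_fst, orb_alp_fst D β (by omega), if_pos rfl, smul_eq_mul]
    ring
  · intro j hj hne
    rw [Finset.mem_range] at hj
    rw [Prod.smul_fst, orb_alp_fst D β hj, if_neg hne, smul_zero]
  · intro h
    exact absurd (Finset.mem_range.mpr (by omega)) h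

theorem orb_w0_mem {n : ℕ} (L : AddSubgroup (E n)) : (w0 : LV n) ∈ lat L :=
  ⟨⟨0, by simp [w0]⟩, ⟨1, by simp [w0]⟩, by simp only [w0]; exact L.zero_mem⟩

theorem orb_mem_lat {n : ℕ} {L : AddSubgroup (E n)} {w : LV n} (hw : w ∈ Orb L) : w ∈ lat L := by
  obtain ⟨γ, hγ, rfl⟩ := hw
  exact (hγ.2 w0).mpr (orb_w0_mem L)

theorem orb_iso {n : ℕ} {L : AddSubgroup (E n)} {w : LV n} (hw : w ∈ Orb L) :
    form w w = 0 := by
  obtain ⟨γ, hγ, rfl⟩ := hw
  rw [hγ.1.1, orb_form_w0]
  simp [w0]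

/-- timelike future vectors have negative product with orbit vectors -/
theorem orb_fut {n : ℕ} {L : AddSubgroup (E n)} {w : LV n} (hw : w ∈ Orb L) {v : LV n}
    (hv : form v v < 0) (hv1 : 0 < v.1) : form v w < 0 := by
  obtain ⟨γ, hγ, rfl⟩ := hw
  have hγi : γ⁻¹ ∈ OL L := (OL L).inv_mem hγ
  have key : γ (γ⁻¹ v) = v := γ.apply_symm_apply v
  have h1 : form v (γ w0) = form (γ⁻¹ v) w0 := by
    rw [← hγ.1.1 (γ⁻¹ v) w0, key]
  rw [h1, orb_form_w0]
  have := hγi.1.2 v hv hv1
  linarith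

/-- the inverse matrix: real form -/
theorem orb_mat (D : Dat) (hD : DOK D) {i j : ℕ} (hi : i < D.n + 2) (hj : j < D.n + 2) :
    ∑ k ∈ Finset.range (D.n + 2), (ent D.H i k : ℝ) * (ent D.G k j : ℝ)
      = 2 * (ent D.H i j : ℝ) + if i = j then (D.d : ℝ) else 0 := by
  have h := hD.mat i hi j hj
  have h2 := congrArg (fun t : ℕ => (t : ℝ)) h
  simp only [Nat.cast_sum, Nat.cast_mul, Nat.cast_add] at h2
  rw [h2]
  by_cases hij : i = j
  · simp [hij]
  · simp [hij]

/-- the dual vectors -/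
theorem orb_dual (hAL : ST_ALPH) (D : Dat) (β : Fin D.n → E D.n) (hD : DOK D) (hB : IsBase D β)
    (y : ℕ → ℝ) {j : ℕ} (hj : j < D.n + 2) :
    form (rv D β (fun i => ∑ k ∈ Finset.range (D.n + 2), (ent D.H i k : ℝ) * y k / D.d))
      (alp D β j) = y j := by
  have hd : (D.d : ℝ) ≠ 0 := by
    have := hD.dpos
    positivity
  rw [hAL.rv_form D β hD hB _ j hj]
  have e1 : ∑ i ∈ Finset.range (D.n + 2), (ent D.G i j : ℝ) *
      (∑ k ∈ Finset.range (D.n + 2), (ent D.H i k : ℝ) * y k / D.d)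
      = ∑ k ∈ Finset.range (D.n + 2), (∑ i ∈ Finset.range (D.n + 2),
        (ent D.H k i : ℝ) * (ent D.G i j : ℝ)) * y k / D.d := by
    simp only [Finset.mul_sum, Finset.sum_mul, Finset.sum_div]
    rw [Finset.sum_comm]
    refine Finset.sum_congr rfl fun k hk => Finset.sum_congr rfl fun i hi => ?_
    rw [Finset.mem_range] at hk hi
    rw [hD.symH i hi k hk]
    ring
  rw [e1]
  have e2 : ∀ k ∈ Finset.range (D.n + 2), (∑ i ∈ Finset.range (D.n + 2),
        (ent D.H k i : ℝ) * (ent D.G i j : ℝ)) * y k / D.d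
      = 2 * ((ent D.H j k : ℝ) * y k / D.d) + if k = j then y j else 0 := by
    intro k hk
    rw [Finset.mem_range] at hk
    rw [orb_mat D hD hk hj, hD.symH k hk j hj]
    by_cases hkj : k = j
    · rw [if_pos hkj, if_pos hkj, hkj]
      field_simp
    · rw [if_neg hkj, if_neg hkj]
      ring
  rw [Finset.sum_congr rfl e2, Finset.sum_add_distrib, ← Finset.mul_sum, Finset.sum_ite_eq',
    if_pos (Finset.mem_range.mpr hj)]
  ring

theorem orb_pos_sum (hAL : ST_ALPH) (D : Dat) (β : Fin D.n → E D.n) (hD : DOK D)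
    (hB : IsBase D β) {w : LV D.n} (hw : w ∈ Orb (latOf β)) (m : ℕ → ℝ) (hm : w = rv D β m)
    (y : ℕ → ℝ) (hy : ∀ i < D.n + 2, 0 < y i) :
    0 < ∑ i ∈ Finset.range (D.n + 2), m i * y i := by
  have hd : (0 : ℝ) < D.d := by
    have := hD.dpos
    exact_mod_cast this
  have hHnn : ∀ i k : ℕ, (0 : ℝ) ≤ (ent D.H i k : ℝ) := fun i k => Nat.cast_nonneg _
  set z : ℕ → ℝ := fun i => ∑ k ∈ Finset.range (D.n + 2), (ent D.H i k : ℝ) * y k / D.d with hz
  have hzpos : ∀ i < D.n + 2, 0 < z i := by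
    intro i hi
    have hterm : ∀ k ∈ Finset.range (D.n + 2), 0 ≤ (ent D.H i k : ℝ) * y k / D.d := by
      intro k hk
      rw [Finset.mem_range] at hk
      exact div_nonneg (mul_nonneg (hHnn i k) (hy k hk).le) hd.le
    have h0 : (0 : ℝ) < (ent D.H i 0 : ℝ) * y 0 / D.d := by
      have h1 : 0 < ent D.H i 0 := by
        have hn := hD.npos
        exact hD.posH i hi 0 (by omega) (by omega)
      have h2 : (0 : ℝ) < (ent D.H i 0 : ℝ) := by exact_mod_cast h1
      exact div_pos (mul_pos h2 (hy 0 (by omega))) hd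
    exact lt_of_lt_of_le h0 (Finset.single_le_sum hterm (Finset.mem_range.mpr (by omega)))
  set v : LV D.n := rv D β z with hv
  have hva : ∀ j < D.n + 2, form v (alp D β j) = y j := fun j hj =>
    orb_dual hAL D β hD hB y hj
  have hvv : form v v < 0 := by
    have h1 : form v v = -∑ i ∈ Finset.range (D.n + 2), z i * form v (alp D β i) := by
      rw [← orb_form_rv]
    rw [h1, neg_lt_zero]
    refine Finset.sum_pos (fun i hi => ?_) ⟨0, Finset.mem_range.mpr (by omega)⟩
    rw [Finset.mem_range] at hi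
    rw [hva i hi]
    exact mul_pos (hzpos i hi) (hy i hi)
  have hv1 : 0 < v.1 := by
    rw [hv, orb_rv_fst]
    exact hzpos _ (by omega)
  have hneg := orb_fut hw hvv hv1
  rw [hm, orb_form_rv] at hneg
  have e : ∑ i ∈ Finset.range (D.n + 2), m i * form v (alp D β i)
      = ∑ i ∈ Finset.range (D.n + 2), m i * y i := by
    refine Finset.sum_congr rfl fun i hi => ?_
    rw [Finset.mem_range] at hi
    rw [hva i hi]
  rw [e] at hneg
  linarith

theorem orb_nonneg (hAL : ST_ALPH) (D : Dat) (β : Fin D.n → E D.n) (hD : DOK D)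
    (hB : IsBase D β) {w : LV D.n} (hw : w ∈ Orb (latOf β)) (m : ℕ → ℤ)
    (hm : w = rv D β (fun i => (m i : ℝ))) {i : ℕ} (hi : i < D.n + 2) : 0 ≤ m i := by
  by_contra hneg
  rw [not_le] at hneg
  have hmi : (m i : ℝ) ≤ -1 := by
    have : m i ≤ -1 := by omega
    exact_mod_cast this
  set K : ℝ := ∑ j ∈ Finset.range (D.n + 2), |(m j : ℝ)| with hK
  have hK0 : 0 ≤ K := Finset.sum_nonneg fun j _ => abs_nonneg _
  have h := orb_pos_sum hAL D β hD hB hw (fun i => (m i : ℝ)) hm
    (fun j => 1 + if j = i then K else 0) (fun j _ => by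
      by_cases hji : j = i
      · simp only [hji, if_true]; linarith
      · simp only [hji, if_false]; linarith)
  have e : ∑ j ∈ Finset.range (D.n + 2), (m j : ℝ) * (1 + if j = i then K else 0)
      = ∑ j ∈ Finset.range (D.n + 2), (m j : ℝ) + (m i : ℝ) * K := by
    rw [← Finset.sum_ite_eq' (Finset.range (D.n + 2)) i (fun j => (m j : ℝ) * K) |>.trans
      (if_pos (Finset.mem_range.mpr hi)), ← Finset.sum_add_distrib]
    refine Finset.sum_congr rfl fun j _ => ?_
    by_cases hji : j = i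
    · rw [if_pos hji, if_pos hji]; ring
    · rw [if_neg hji, if_neg hji]; ring
  rw [e] at h
  have h1 : ∑ j ∈ Finset.range (D.n + 2), (m j : ℝ) ≤ K :=
    Finset.sum_le_sum fun j _ => le_abs_self _
  have h2 : (m i : ℝ) * K ≤ -K := by nlinarith
  linarith

theorem orb_coord (hAL : ST_ALPH) (hL : ST_LATT) (D : Dat) (β : Fin D.n → E D.n) (hD : DOK D)
    (hB : IsBase D β) (w : LV D.n) (hw : w ∈ Orb (latOf β)) :
    ∃ m : List ℕ, m.length = D.n + 2 ∧ w = wv D β m := by
  obtain ⟨m, hm⟩ := (hL.mem D β hD hB w).mp (orb_mem_lat hw)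
  refine ⟨List.ofFn (fun i : Fin (D.n + 2) => (m i).toNat), by simp, ?_⟩
  rw [hm, wv, rv, rv]
  congr 1
  refine Finset.sum_congr rfl fun i hi => ?_
  rw [Finset.mem_range] at hi
  congr 1
  have hnn := orb_nonneg hAL D β hD hB hw m hm hi
  unfold fn
  rw [List.getD_eq_getElem?_getD, List.getElem?_ofFn, dif_pos hi, Option.getD_some]
  have : ((m i).toNat : ℤ) = m i := Int.toNat_of_nonneg hnn
  have h2 : (((m i).toNat : ℕ) : ℝ) = (m i : ℝ) := by exact_mod_cast this
  exact h2.symm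

theorem orb_form_w0_alp (D : Dat) (β : Fin D.n → E D.n) {i : ℕ} (hi : i < D.n + 2) :
    form (w0 : LV D.n) (alp D β i) = if i = D.n + 1 then (1 : ℝ) else 0 := by
  rw [orb_comm, orb_form_w0, orb_alp_fst D β hi]
  by_cases h : i = D.n + 1
  · rw [if_pos h, if_pos h]; ring
  · rw [if_neg h, if_neg h]; ring

theorem orb_dom (hAL : ST_ALPH) (D : Dat) (β : Fin D.n → E D.n) (hD : DOK D)
    (hB : IsBase D β) (w : LV D.n) (hw : w ∈ Orb (latOf β))
    (hdom : ∀ i < D.n + 2, 0 ≤ form w (alp D β i)) : w = w0 := by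
  have hd : (0 : ℝ) < D.d := by
    have := hD.dpos
    exact_mod_cast this
  have hHnn : ∀ i k : ℕ, (0 : ℝ) ≤ (ent D.H i k : ℝ) := fun i k => Nat.cast_nonneg _
  have hrep := hAL.rep D β hD hB w
  have hiso := orb_iso hw
  have h0 : form w w = -∑ i ∈ Finset.range (D.n + 2), (∑ k ∈ Finset.range (D.n + 2),
      (ent D.H i k : ℝ) * form w (alp D β k) / D.d) * form w (alp D β i) := by
    rw [← orb_form_rv, ← hrep]
  rw [hiso] at h0
  have hsum : ∑ i ∈ Finset.range (D.n + 2), (∑ k ∈ Finset.range (D.n + 2),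
      (ent D.H i k : ℝ) * form w (alp D β k) / D.d) * form w (alp D β i) = 0 := by linarith
  have hin : ∀ i ∈ Finset.range (D.n + 2), 0 ≤ (∑ k ∈ Finset.range (D.n + 2),
      (ent D.H i k : ℝ) * form w (alp D β k) / D.d) * form w (alp D β i) := by
    intro i hi
    rw [Finset.mem_range] at hi
    refine mul_nonneg (Finset.sum_nonneg fun k hk => ?_) (hdom i hi)
    rw [Finset.mem_range] at hk
    exact div_nonneg (mul_nonneg (hHnn i k) (hdom k hk)) hd.le
  rw [Finset.sum_eq_zero_iff_of_nonneg hin] at hsum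
  have hzero : ∀ j, j < D.n + 1 → form w (alp D β j) = 0 := by
    intro j hj
    have h1 := hsum j (Finset.mem_range.mpr (by omega))
    rcases mul_eq_zero.mp h1 with h2 | h2
    · have hin2 : ∀ k ∈ Finset.range (D.n + 2),
          0 ≤ (ent D.H j k : ℝ) * form w (alp D β k) / D.d := by
        intro k hk
        rw [Finset.mem_range] at hk
        exact div_nonneg (mul_nonneg (hHnn j k) (hdom k hk)) hd.le
      rw [Finset.sum_eq_zero_iff_of_nonneg hin2] at h2
      have h3 := h2 j (Finset.mem_range.mpr (by omega))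
      have h4 : (0 : ℝ) < (ent D.H j j : ℝ) := by
        have := hD.posH j (by omega) j (by omega) (by omega)
        exact_mod_cast this
      rcases div_eq_zero_iff.mp h3 with h5 | h5
      · rcases mul_eq_zero.mp h5 with h6 | h6
        · linarith
        · exact h6
      · linarith
    · exact h2
  set k : ℝ := form w (alp D β (D.n + 1)) with hk
  have hwk : w = k • w0 := by
    rw [hrep, hAL.rep D β hD hB w0, rv, rv, smul_neg, Finset.smul_sum]
    congr 1
    refine Finset.sum_congr rfl fun i _ => ?_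
    rw [smul_smul]
    congr 1
    rw [Finset.mul_sum]
    refine Finset.sum_congr rfl fun j hj => ?_
    rw [Finset.mem_range] at hj
    rw [orb_form_w0_alp D β hj]
    by_cases hjn : j = D.n + 1
    · rw [if_pos hjn, hjn, ← hk]; ring
    · rw [if_neg hjn, hzero j (by omega)]; ring
  have hk0 : 0 ≤ k := hdom _ (by omega)
  obtain ⟨γ, hγ, hγw⟩ := hw
  have hlat : w ∈ lat (latOf β) := orb_mem_lat ⟨γ, hγ, hγw⟩
  obtain ⟨a, ha⟩ := hlat.2.1
  have hka : k = a := by
    rw [← ha, hwk]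
    simp [w0]
  have hkne : k ≠ 0 := by
    intro h
    rw [h, zero_smul] at hwk
    rw [hwk] at hγw
    have h1 : (w0 : LV D.n) = 0 := by
      apply γ.injective
      rw [← hγw, map_zero]
    have h2 : (w0 : LV D.n).2.1 = (0 : LV D.n).2.1 := by rw [h1]
    simp [w0] at h2
  have hinv : γ (k⁻¹ • w0) = w0 := by
    rw [map_smul, ← hγw, hwk, smul_smul, inv_mul_cancel₀ hkne, one_smul]
  have hlat2 : (k⁻¹ • w0 : LV D.n) ∈ lat (latOf β) := by
    rw [← hγ.2, hinv]
    exact orb_w0_mem _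
  obtain ⟨b, hb⟩ := hlat2.2.1
  have hkb : k⁻¹ = b := by
    rw [← hb]
    simp [w0]
  have hab : (a : ℝ) * b = 1 := by
    rw [← hka, ← hkb]
    exact mul_inv_cancel₀ hkne
  have hab' : a * b = 1 := by exact_mod_cast hab
  have hapos : 0 ≤ a := by
    have : (0 : ℝ) ≤ a := by rw [← hka]; exact hk0
    exact_mod_cast this
  have ha1 : a = 1 := by
    rcases Int.eq_one_or_neg_one_of_mul_eq_one hab' with h | h
    · exact h
    · omega
  rw [hwk, hka, ha1]
  simp

theorem orb_form_wv (hA : ST_LSTA) (hC : ST_LSTC) (hAL : ST_ALPH) (D : Dat)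
    (β : Fin D.n → E D.n) (hD : DOK D) (hB : IsBase D β) (m : List ℕ)
    (_hm : m.length = D.n + 2) (i : ℕ) (hi : i < D.n + 2) :
    form (wv D β m) (alp D β i)
      = (((mv D.G m).getD i 0 : ℕ) : ℝ) - 2 * ((m.getD i 0 : ℕ) : ℝ) := by
  rw [wv, hAL.rv_form D β hD hB (fn m) i hi, hC.mv_getD, hA.dn_eq]
  have hlen : (D.G.getD i []).length = D.n + 2 := by
    have hi' : i < D.G.length := by rw [hD.lenG]; exact hi
    rw [List.getD_eq_getElem _ _ hi']
    exact hD.lenG' _ (List.getElem_mem hi')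
  rw [hA.dx_range _ (D.n + 2) _ hlen]
  have e : ∑ j ∈ Finset.range (D.n + 2), (ent D.G j i : ℝ) * fn m j
      = ∑ j ∈ Finset.range (D.n + 2), fn (D.G.getD i []) j * fn m j := by
    refine Finset.sum_congr rfl fun j hj => ?_
    rw [Finset.mem_range] at hj
    rw [hD.symG j hj i hi]
    rfl
  rw [e]
  unfold fn
  ring

theorem orb_refl_fn (g : ℕ) : ∀ (m : List ℕ) (i : ℕ), i < m.length → ∀ j : ℕ,
    (refl g m i).getD j 0 = if j = i then g - m.getD i 0 else m.getD j 0
  | [], i, hi, j => by simp at hi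
  | a :: s, 0, _, j => by
    cases j with
    | zero => simp [refl]
    | succ j => simp [refl]
  | a :: s, i + 1, hi, j => by
    cases j with
    | zero => simp [refl]
    | succ j =>
      have hi' : i < s.length := by simpa using hi
      have h := orb_refl_fn g s i hi' j
      simp only [refl, List.getD_cons_succ, h, Nat.add_right_cancel_iff]

theorem orb_rf_wv (hA : ST_LSTA) (hC : ST_LSTC) (hAL : ST_ALPH) (D : Dat)
    (β : Fin D.n → E D.n) (hD : DOK D) (hB : IsBase D β) (m : List ℕ)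
    (hm : m.length = D.n + 2) (i : ℕ) (hi : i < D.n + 2)
    (hle : m.getD i 0 ≤ (mv D.G m).getD i 0) :
    rf D β i (wv D β m) = wv D β (refl ((mv D.G m).getD i 0) m i) := by
  rw [rf, orb_form_wv hA hC hAL D β hD hB m hm i hi, wv, wv, rv, rv]
  set g : ℕ := (mv D.G m).getD i 0 with hg
  have e : ((g : ℝ) - 2 * ((m.getD i 0 : ℕ) : ℝ)) • alp D β i
      = ∑ j ∈ Finset.range (D.n + 2),
        (if j = i then ((g : ℝ) - 2 * ((m.getD i 0 : ℕ) : ℝ)) else 0) • alp D β j := by
    rw [Finset.sum_eq_single i]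
    · rw [if_pos rfl]
    · intro j _ hj
      rw [if_neg hj, zero_smul]
    · intro h
      exact absurd (Finset.mem_range.mpr hi) h
  rw [e, sub_eq_add_neg, ← neg_add, ← Finset.sum_add_distrib]
  congr 1
  refine Finset.sum_congr rfl fun j _ => ?_
  rw [← add_smul]
  congr 1
  unfold fn
  rw [orb_refl_fn g m i (by rw [hm]; exact hi) j]
  by_cases hj : j = i
  · rw [if_pos hj, if_pos hj, hj, Nat.cast_sub hle]
    ring
  · rw [if_neg hj, if_neg hj]
    ring

theorem orb_rf_orb (hL : ST_LATT) (D : Dat)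
    (β : Fin D.n → E D.n) (hD : DOK D) (hB : IsBase D β) (w : LV D.n)
    (hw : w ∈ Orb (latOf β)) (i : ℕ) (hi : i < D.n + 2) :
    rf D β i w ∈ Orb (latOf β) := by
  obtain ⟨γ, hγ, rfl⟩ := hw
  obtain ⟨δ, hδ, hd⟩ := hL.rf_mem D β hD hB i hi
  exact ⟨δ * γ, (OL (latOf β)).mul_mem hδ hγ, by rw [← hd, LinearEquiv.mul_apply]⟩

/-- ORB -/
theorem st_ORB (hA : ST_LSTA) (hC : ST_LSTC) (hAL : ST_ALPH) (hL : ST_LATT) : ST_ORB where
  coord := orb_coord hAL hL
  dom := orb_dom hAL
  rf_orb := orb_rf_orb hL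
  rf_wv := orb_rf_wv hA hC hAL
  form_wv := orb_form_wv hA hC hAL

end Pool.Agent.Helper10.Fam
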